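import Pool.Agent.Y670.KD.Defs
import Pool.Agent.Helper750.OC.Dim

set_option autoImplicit false

/-!
# KD-NEFF (helper542 for helper670, job 11023): a structure of finite dimension is not effectively infinite
-/

namespace Pool.Agent.Y542.KD

open Pool.Agent.Helper750.DC Pool.Agent.Helper750.CT Pool.Agent.Helper750.OC Pool.Agent.Helper158.FCD Encodable
open Nat.Partrec

theorem comp_fin (d : ℕ → ℕ × List ℕ → Bool) (hd : ∀ i, Computable (d i)) (n m : ℕ) :
    Computable fun q : ℕ × (ℕ × List ℕ) => if q.1 < m then d q.1 q.2 else d n q.2 := by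
  induction m with
  | zero =>
    refine ((hd n).comp Computable.snd).of_eq fun q => ?_
    simp
  | succ m ih =>
    have h : Computable fun q : ℕ × (ℕ × List ℕ) =>
        bif decide (q.1 = m) then d m q.2 else (if q.1 < m then d q.1 q.2 else d n q.2) := by
      refine Computable.cond (Pool.Agent.Helper446.RE.cdecide (Pool.Agent.Helper446.RE.cp_eq
        Computable.fst (Computable.const m))) ((hd m).comp Computable.snd) ih
    refine h.of_eq fun q => ?_
    by_cases h1 : q.1 = m
    · have h2 : q.1 < m + 1 := by omega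
      rw [if_pos h2, decide_eq_true h1, cond_true, h1]
    · rw [decide_eq_false h1, cond_false]
      by_cases h2 : q.1 < m
      · rw [if_pos h2, if_pos (by omega)]
      · rw [if_neg h2, if_neg (by omega)]

theorem t_NEFF : Pool.Agent.Y670.KD.Stm_NEFF := by
  classical
  intro n L A hn h
  obtain ⟨ν, hν, _, hd⟩ := h
  rintro ⟨a, _, ha⟩
  obtain ⟨ν', hν'⟩ : ∃ ν' : ℕ → ℕ → ℕ, ν' = fun i => if h : i < n then ν ⟨i, h⟩ else ν ⟨0, hn⟩ := ⟨_, rfl⟩
  have hc : ∀ i, IsConstr L A (ν' i) := by
    intro i
    rw [hν']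
    dsimp only
    split_ifs <;> exact hν _
  have hbig : ∀ i, ¬ i < n → ν' i = ν' n := by
    intro i hi
    rw [hν']
    dsimp only
    rw [dif_neg hi, dif_neg (lt_irrefl n)]
  choose d hd1 hd2 using fun i => ComputablePred.computable_iff.1 (hc i).2
  have hF := comp_fin d hd1 n n
  have hcomp : Computable fun q : ℕ × (ℕ × List ℕ) =>
      bif (if q.1 < n then d q.1 q.2 else d n q.2) then 1 else 0 :=
    Computable.cond hF (Computable.const 1) (Computable.const 0)
  obtain ⟨e, he⟩ := Code.exists_code.1 hcomp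
  have hidx : IsSeqIndex L A ν' (encode e) := by
    refine ⟨fun i => (hc i).1, ?_⟩
    intro i p
    have h3 := congrFun he (encode (i, p))
    simp only [encodek, Part.coe_some, Part.bind_some] at h3
    rw [Denumerable.ofNat_encode, h3]
    have e1 : p ∈ AD L A (ν' i) ↔ (if i < n then d i p else d n p) = true := by
      by_cases hi : i < n
      · rw [if_pos hi]
        exact iff_of_eq (congrFun (hd2 i) p)
      · rw [if_neg hi, hbig i hi]
        exact iff_of_eq (congrFun (hd2 n) p)
    by_cases h5 : (if i < n then d i p else d n p) = true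
    · have h6 := e1.2 h5
      rw [if_pos h6]
      simp [h5]
    · have h6 : ¬ p ∈ AD L A (ν' i) := fun h => h5 (e1.1 h)
      rw [if_neg h6]
      simp [h5]
  obtain ⟨c, _, ρ, hρ, hne⟩ := ha _ _ hidx
  obtain ⟨i, hi⟩ := hd ρ (isConstr_of_index hρ)
  refine hne i.val ?_
  rw [hν']
  dsimp only
  rw [dif_pos i.isLt]
  exact hi

end Pool.Agent.Y542.KD
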